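import Pool.Agent.Run7.h970.Inter3

set_option autoImplicit false

/-!
# Turán exponents of a finite family can drop below the minimum

Part 1 is the literal negated form of the question (a pair of forests). Part 2 is a pair of
connected bipartite graphs, both containing cycles: the 4-cycle and the two-grid graph.
-/

namespace Pool.Agent.Results.MP_befe0b_co.ExponentGap

open Filter Topology

/-- `f 𝒢 n`: the largest number of edges of a graph on `n` vertices that contains no member of the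
finite family `𝒢` as a (not necessarily induced) subgraph. -/
noncomputable def f (𝒢 : List (Σ k : ℕ, SimpleGraph (Fin k))) (n : ℕ) : ℕ :=
  sSup {m | ∃ Γ : SimpleGraph (Fin n), (∀ G ∈ 𝒢, ¬ G.2.IsContained Γ) ∧ Γ.edgeSet.ncard = m}

/-- The family `𝒢` has exponent `α`: `f(n; 𝒢) / n^α` tends to a positive finite limit. -/
def HasExp (𝒢 : List (Σ k : ℕ, SimpleGraph (Fin k))) (α : ℝ) : Prop :=
  ∃ c : ℝ, 0 < c ∧ Tendsto (fun n : ℕ => (f 𝒢 n : ℝ) / (n : ℝ) ^ α) atTop (𝓝 c)

/-- The 4-cycle. -/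
def C4 : Σ k : ℕ, SimpleGraph (Fin k) := ⟨4, SimpleGraph.cycleGraph 4⟩

theorem le_f (𝒢 : List (Σ k : ℕ, SimpleGraph (Fin k))) (n : ℕ) (Γ : SimpleGraph (Fin n))
    (h : ∀ G ∈ 𝒢, ¬ G.2.IsContained Γ) : Γ.edgeSet.ncard ≤ f 𝒢 n := by
  refine le_csSup ⟨Nat.card (Sym2 (Fin n)), ?_⟩ ⟨Γ, h, rfl⟩
  rintro m ⟨Γ', -, rfl⟩
  exact Set.ncard_le_card _

theorem f_le (𝒢 : List (Σ k : ℕ, SimpleGraph (Fin k))) (n N : ℕ)
    (h : ∀ Γ : SimpleGraph (Fin n), (∀ G ∈ 𝒢, ¬ G.2.IsContained Γ) → Γ.edgeSet.ncard ≤ N) :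
    f 𝒢 n ≤ N := by
  refine csSup_le' ?_
  rintro m ⟨Γ, h1, rfl⟩
  exact h Γ h1

theorem f_le_real (𝒢 : List (Σ k : ℕ, SimpleGraph (Fin k))) (n : ℕ) (a : ℝ) (ha : 0 ≤ a)
    (h : ∀ Γ : SimpleGraph (Fin n), (∀ G ∈ 𝒢, ¬ G.2.IsContained Γ) →
      (Γ.edgeSet.ncard : ℝ) ≤ a) : (f 𝒢 n : ℝ) ≤ a := by
  have h1 : f 𝒢 n ≤ ⌊a⌋₊ := f_le 𝒢 n _ (fun Γ h1 => Nat.le_floor (h Γ h1))
  exact (Nat.cast_le.mpr h1).trans (Nat.floor_le ha)

theorem exp_le {g : ℕ → ℝ} {b α c : ℝ} (hc : 0 < c)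
    (ht : Tendsto (fun n : ℕ => g n / (n : ℝ) ^ α) atTop (𝓝 c))
    (hg : ∀ᶠ n : ℕ in atTop, g n ≤ (n : ℝ) ^ b) : α ≤ b := by
  by_contra hcon
  have hcon' : 0 < α - b := by linarith [not_le.mp hcon]
  have h0 : Tendsto (fun n : ℕ => (n : ℝ) ^ (-(α - b))) atTop (𝓝 0) :=
    (tendsto_rpow_neg_atTop hcon').comp tendsto_natCast_atTop_atTop
  have h1 : c ≤ 0 := by
    refine le_of_tendsto_of_tendsto ht h0 ?_
    filter_upwards [hg, eventually_gt_atTop 0] with n h1 h2
    have hn : (0 : ℝ) < n := by exact_mod_cast h2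
    rw [div_le_iff₀ (Real.rpow_pos_of_pos hn _), ← Real.rpow_add hn]
    refine h1.trans (le_of_eq ?_)
    congr 1
    ring
  linarith

theorem le_exp {g : ℕ → ℝ} {b α c K : ℝ} (hK : 0 < K)
    (ht : Tendsto (fun n : ℕ => g n / (n : ℝ) ^ α) atTop (𝓝 c))
    (hg : ∀ᶠ n : ℕ in atTop, (n : ℝ) ^ b / K ≤ g n) : b ≤ α := by
  by_contra hcon
  have hcon' : 0 < b - α := by linarith [not_le.mp hcon]
  have h0 : Tendsto (fun n : ℕ => (n : ℝ) ^ (b - α) / K) atTop atTop :=
    ((tendsto_rpow_atTop hcon').comp tendsto_natCast_atTop_atTop).atTop_div_const hK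
  have h1 : Tendsto (fun n : ℕ => g n / (n : ℝ) ^ α) atTop atTop := by
    refine tendsto_atTop_mono' atTop ?_ h0
    filter_upwards [hg, eventually_gt_atTop 0] with n h1 h2
    have hn : (0 : ℝ) < n := by exact_mod_cast h2
    show (n : ℝ) ^ (b - α) / K ≤ g n / (n : ℝ) ^ α
    rw [le_div_iff₀ (Real.rpow_pos_of_pos hn _)]
    refine le_trans (le_of_eq ?_) h1
    rw [div_mul_eq_mul_div, ← Real.rpow_add hn]
    congr 2
    ring
  exact not_tendsto_nhds_of_tendsto_atTop h1 c ht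

/-! ### The trivial pair of forests -/

/-- The path with two edges. -/
def K12 : SimpleGraph (Fin 3) where
  Adj i j := i ≠ j ∧ (i = 0 ∨ j = 0)
  symm := ⟨fun _ _ h => ⟨h.1.symm, h.2.symm⟩⟩
  loopless := ⟨fun _ h => h.1 rfl⟩

/-- Two disjoint edges. -/
def M2 : SimpleGraph (Fin 4) where
  Adj i j := i ≠ j ∧ (i.val / 2 = j.val / 2)
  symm := ⟨fun _ _ h => ⟨h.1.symm, h.2.symm⟩⟩
  loopless := ⟨fun _ h => h.1 rfl⟩

theorem K12_contained {V : Type} (Γ : SimpleGraph V) (a b c : V) (hab : Γ.Adj a b)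
    (hac : Γ.Adj a c) (hbc : b ≠ c) : K12.IsContained Γ := by
  refine ⟨⟨⟨![a, b, c], ?_⟩, ?_⟩⟩
  · intro i j h
    fin_cases i <;> fin_cases j <;>
      first
      | exact hab | exact hab.symm | exact hac | exact hac.symm
      | exact absurd h (by simp [K12])
  · intro i j h
    have h' : (![a, b, c] : Fin 3 → V) i = (![a, b, c] : Fin 3 → V) j := h
    fin_cases i <;> fin_cases j <;>
      simp [hab.ne, hab.ne.symm, hac.ne, hac.ne.symm, hbc, hbc.symm] at h' ⊢

theorem M2_contained {V : Type} (Γ : SimpleGraph V) (a b c d : V) (hab : Γ.Adj a b)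
    (hcd : Γ.Adj c d) (h1 : a ≠ c) (h2 : a ≠ d) (h3 : b ≠ c) (h4 : b ≠ d) :
    M2.IsContained Γ := by
  refine ⟨⟨⟨![a, b, c, d], ?_⟩, ?_⟩⟩
  · intro i j h
    fin_cases i <;> fin_cases j <;>
      first
      | exact hab | exact hab.symm | exact hcd | exact hcd.symm
      | exact absurd h (by simp [M2])
  · intro i j h
    have h' : (![a, b, c, d] : Fin 4 → V) i = (![a, b, c, d] : Fin 4 → V) j := h
    fin_cases i <;> fin_cases j <;>
      simp [hab.ne, hab.ne.symm, hcd.ne, hcd.ne.symm, h1, h1.symm, h2, h2.symm, h3, h3.symm,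
        h4, h4.symm] at h' ⊢

theorem K12_colorable : K12.Colorable 2 := by
  refine ⟨SimpleGraph.Coloring.mk (fun i => if i = 0 then 0 else 1) ?_⟩
  intro i j h
  revert h
  fin_cases i <;> fin_cases j <;> simp [K12]

theorem M2_colorable : M2.Colorable 2 := by
  refine ⟨SimpleGraph.Coloring.mk (fun i => if i.val % 2 = 0 then 0 else 1) ?_⟩
  intro i j h
  revert h
  fin_cases i <;> fin_cases j <;> simp [M2]

/-- Edge count as a `Finset` cardinality. -/
theorem ncard_edges {n : ℕ} (Γ : SimpleGraph (Fin n)) [DecidableRel Γ.Adj] :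
    Γ.edgeSet.ncard = Γ.edgeFinset.card := by
  rw [Set.ncard_eq_toFinset_card']
  rfl

theorem edges_of_K12_free {n : ℕ} (Γ : SimpleGraph (Fin n)) (h : ¬ K12.IsContained Γ) :
    2 * Γ.edgeSet.ncard ≤ n := by
  classical
  rw [ncard_edges, ← Γ.sum_degrees_eq_twice_card_edges]
  calc ∑ v, Γ.degree v ≤ ∑ _v : Fin n, 1 := by
        refine Finset.sum_le_sum (fun v _ => ?_)
        rw [← SimpleGraph.card_neighborFinset_eq_degree, Finset.card_le_one]
        intro a ha b hb
        rw [SimpleGraph.mem_neighborFinset] at ha hb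
        by_contra hab
        exact h (K12_contained Γ v a b ha hb hab)
    _ = n := by simp

/-- The perfect (or almost perfect) matching. -/
def mat (n : ℕ) : SimpleGraph (Fin n) where
  Adj i j := i ≠ j ∧ (i.val / 2 = j.val / 2)
  symm := ⟨fun _ _ h => ⟨h.1.symm, h.2.symm⟩⟩
  loopless := ⟨fun _ h => h.1 rfl⟩

theorem mat_free (n : ℕ) : ¬ K12.IsContained (mat n) := by
  rintro ⟨φ⟩
  have h1 : (mat n).Adj (φ 0) (φ 1) := φ.toHom.map_adj (by simp [K12])
  have h2 : (mat n).Adj (φ 0) (φ 2) := φ.toHom.map_adj (by simp [K12])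
  have h3 : φ 1 ≠ φ 2 := fun h => by
    have := φ.injective h
    revert this
    decide
  have e1 := h1.2
  have e2 := h2.2
  have n1 : (φ 0).val ≠ (φ 1).val := fun h => h1.1 (Fin.ext h)
  have n2 : (φ 0).val ≠ (φ 2).val := fun h => h2.1 (Fin.ext h)
  have n3 : (φ 1).val ≠ (φ 2).val := fun h => h3 (Fin.ext h)
  omega

theorem mat_edges (n : ℕ) : n / 2 ≤ (mat n).edgeSet.ncard := by
  have hlt : ∀ k : Fin (n / 2), 2 * k.val + 1 < n := fun k => by
    have := k.isLt
    omega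
  let g : Fin (n / 2) → Sym2 (Fin n) := fun k =>
    s(⟨2 * k.val, by have := hlt k; omega⟩, ⟨2 * k.val + 1, hlt k⟩)
  have hg : Function.Injective g := by
    intro k l hkl
    have h := hkl
    simp only [g, Sym2.eq_iff, Fin.mk.injEq] at h
    apply Fin.ext
    omega
  have hsub : Set.range g ⊆ (mat n).edgeSet := by
    rintro _ ⟨k, rfl⟩
    show (mat n).Adj _ _
    refine ⟨fun h => ?_, ?_⟩
    · have := congrArg Fin.val h
      simp at this
    · show (2 * k.val) / 2 = (2 * k.val + 1) / 2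
      omega
  calc n / 2 = (Set.range g).ncard := by
        rw [← Set.image_univ, Set.ncard_image_of_injective _ hg, Set.ncard_univ, Nat.card_fin]
    _ ≤ _ := Set.ncard_le_ncard hsub (Set.toFinite _)

theorem edges_of_M2_free {n : ℕ} (Γ : SimpleGraph (Fin n)) (h : ¬ M2.IsContained Γ) (hn : 4 ≤ n) :
    Γ.edgeSet.ncard ≤ n := by
  classical
  rw [ncard_edges]
  by_cases h3 : ∃ u, 3 ≤ Γ.degree u
  · obtain ⟨u, hu⟩ := h3
    rw [← SimpleGraph.card_neighborFinset_eq_degree] at hu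
    obtain ⟨a, ha, b, hb, c, hc, hab, hac, hbc⟩ := Finset.two_lt_card.mp hu
    rw [SimpleGraph.mem_neighborFinset] at ha hb hc
    have hsub : Γ.edgeFinset ⊆ Γ.incidenceFinset u := by
      intro e he
      rw [SimpleGraph.mem_edgeFinset] at he
      rw [SimpleGraph.mem_incidenceFinset]
      refine ⟨he, ?_⟩
      by_contra hue
      induction e using Sym2.ind with
      | _ x y =>
        have hxy : Γ.Adj x y := he
        have hux : u ≠ x := fun h => hue (by rw [h]; exact Sym2.mem_mk_left _ _)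
        have huy : u ≠ y := fun h => hue (by rw [h]; exact Sym2.mem_mk_right _ _)
        have key : ∀ w, Γ.Adj u w → w = x ∨ w = y := by
          intro w hw
          by_contra hcon
          rw [not_or] at hcon
          exact h (M2_contained Γ u w x y hw hxy hux huy hcon.1 hcon.2)
        rcases key a ha with h1 | h1 <;> rcases key b hb with h2 | h2 <;>
          rcases key c hc with h3 | h3 <;> simp_all
    calc Γ.edgeFinset.card ≤ (Γ.incidenceFinset u).card := Finset.card_le_card hsub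
      _ = Γ.degree u := Γ.card_incidenceFinset_eq_degree u
      _ ≤ n := by
          have := Γ.degree_lt_card_verts u
          rw [Fintype.card_fin] at this
          omega
  · have h3' : ∀ u, Γ.degree u ≤ 2 := fun u => by
      by_contra hcon
      exact h3 ⟨u, by omega⟩
    rcases Γ.edgeFinset.eq_empty_or_nonempty with h0 | ⟨e, he⟩
    · rw [h0]
      simp
    · rw [SimpleGraph.mem_edgeFinset] at he
      induction e using Sym2.ind with
      | _ x y =>
        have hxy : Γ.Adj x y := he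
        have hsub : Γ.edgeFinset ⊆ Γ.incidenceFinset x ∪ Γ.incidenceFinset y := by
          intro e' he'
          rw [SimpleGraph.mem_edgeFinset] at he'
          rw [Finset.mem_union, SimpleGraph.mem_incidenceFinset, SimpleGraph.mem_incidenceFinset]
          by_contra hcon
          rw [not_or] at hcon
          induction e' using Sym2.ind with
          | _ u v =>
            have huv : Γ.Adj u v := he'
            have hx : x ∉ s(u, v) := fun hx => hcon.1 ⟨he', hx⟩
            have hy : y ∉ s(u, v) := fun hy => hcon.2 ⟨he', hy⟩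
            rw [Sym2.mem_iff, not_or] at hx hy
            exact h (M2_contained Γ x y u v hxy huv hx.1 hx.2 hy.1 hy.2)
        calc Γ.edgeFinset.card ≤ (Γ.incidenceFinset x ∪ Γ.incidenceFinset y).card :=
              Finset.card_le_card hsub
          _ ≤ (Γ.incidenceFinset x).card + (Γ.incidenceFinset y).card := Finset.card_union_le _ _
          _ = Γ.degree x + Γ.degree y := by
              rw [Γ.card_incidenceFinset_eq_degree, Γ.card_incidenceFinset_eq_degree]
          _ ≤ n := by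
              have := h3' x
              have := h3' y
              omega

/-- The star with centre `0`. -/
def st (n : ℕ) : SimpleGraph (Fin n) where
  Adj i j := i ≠ j ∧ (i.val = 0 ∨ j.val = 0)
  symm := ⟨fun _ _ h => ⟨h.1.symm, h.2.symm⟩⟩
  loopless := ⟨fun _ h => h.1 rfl⟩

theorem st_free (n : ℕ) : ¬ M2.IsContained (st n) := by
  rintro ⟨φ⟩
  have h1 : (st n).Adj (φ 0) (φ 1) := φ.toHom.map_adj (by simp [M2])
  have h2 : (st n).Adj (φ 2) (φ 3) := φ.toHom.map_adj (by simp [M2])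
  have key : ∀ i j : Fin 4, i ≠ j → (φ i).val ≠ (φ j).val := fun i j hij h =>
    hij (φ.injective (Fin.ext h))
  have k1 := key 0 2 (by decide)
  have k2 := key 0 3 (by decide)
  have k3 := key 1 2 (by decide)
  have k4 := key 1 3 (by decide)
  rcases h1.2 with h | h <;> rcases h2.2 with h' | h' <;> omega

theorem st_edges (n : ℕ) : n - 1 ≤ (st n).edgeSet.ncard := by
  rcases Nat.eq_zero_or_pos n with h0 | h0
  · subst h0
    simp
  let g : Fin (n - 1) → Sym2 (Fin n) := fun k =>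
    s(⟨0, h0⟩, ⟨k.val + 1, by have := k.isLt; omega⟩)
  have hg : Function.Injective g := by
    intro k l hkl
    have h := hkl
    simp only [g, Sym2.eq_iff, Fin.mk.injEq] at h
    apply Fin.ext
    omega
  have hsub : Set.range g ⊆ (st n).edgeSet := by
    rintro _ ⟨k, rfl⟩
    show (st n).Adj _ _
    refine ⟨fun h => ?_, Or.inl rfl⟩
    have := congrArg Fin.val h
    simp at this
  calc n - 1 = (Set.range g).ncard := by
        rw [← Set.image_univ, Set.ncard_image_of_injective _ hg, Set.ncard_univ, Nat.card_fin]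
    _ ≤ _ := Set.ncard_le_ncard hsub (Set.toFinite _)

theorem edges_of_both_free {n : ℕ} (Γ : SimpleGraph (Fin n)) (h : ¬ K12.IsContained Γ)
    (h' : ¬ M2.IsContained Γ) : Γ.edgeSet.ncard ≤ 1 := by
  classical
  rw [ncard_edges, Finset.card_le_one]
  intro e he e' he'
  rw [SimpleGraph.mem_edgeFinset] at he he'
  induction e using Sym2.ind with
  | _ x y =>
    induction e' using Sym2.ind with
    | _ u v =>
      have hxy : Γ.Adj x y := he
      have huv : Γ.Adj u v := he'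
      by_contra hne
      by_cases h1 : x = u
      · subst h1
        exact h (K12_contained Γ x y v hxy huv (fun h => hne (by rw [h])))
      by_cases h2 : x = v
      · subst h2
        exact h (K12_contained Γ x y u hxy huv.symm (fun h => hne (by rw [h, Sym2.eq_swap])))
      by_cases h3 : y = u
      · subst h3
        exact h (K12_contained Γ y x v hxy.symm huv (fun h => hne (by rw [h, Sym2.eq_swap])))
      by_cases h4 : y = v
      · subst h4
        exact h (K12_contained Γ y x u hxy.symm huv.symm (fun h => hne (by rw [h])))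
      exact h' (M2_contained Γ x y u v hxy huv h1 h2 h3 h4)

/-- A single edge. -/
def one (n : ℕ) : SimpleGraph (Fin n) where
  Adj i j := i ≠ j ∧ i.val ≤ 1 ∧ j.val ≤ 1
  symm := ⟨fun _ _ h => ⟨h.1.symm, h.2.2, h.2.1⟩⟩
  loopless := ⟨fun _ h => h.1 rfl⟩

theorem one_free (n : ℕ) : ¬ K12.IsContained (one n) := by
  rintro ⟨φ⟩
  have h1 : (one n).Adj (φ 0) (φ 1) := φ.toHom.map_adj (by simp [K12])
  have h2 : (one n).Adj (φ 0) (φ 2) := φ.toHom.map_adj (by simp [K12])
  have key : ∀ i j : Fin 3, i ≠ j → (φ i).val ≠ (φ j).val := fun i j hij h =>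
    hij (φ.injective (Fin.ext h))
  have k1 := key 0 1 (by decide)
  have k2 := key 0 2 (by decide)
  have k3 := key 1 2 (by decide)
  have a1 := h1.2
  have a2 := h2.2
  omega

theorem one_free' (n : ℕ) : ¬ M2.IsContained (one n) := by
  rintro ⟨φ⟩
  have h1 : (one n).Adj (φ 0) (φ 1) := φ.toHom.map_adj (by simp [M2])
  have h2 : (one n).Adj (φ 2) (φ 3) := φ.toHom.map_adj (by simp [M2])
  have key : ∀ i j : Fin 4, i ≠ j → (φ i).val ≠ (φ j).val := fun i j hij h =>
    hij (φ.injective (Fin.ext h))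
  have k1 := key 0 1 (by decide)
  have k2 := key 0 2 (by decide)
  have k3 := key 1 2 (by decide)
  have a1 := h1.2
  have a2 := h2.2
  omega

theorem one_edges (n : ℕ) (hn : 2 ≤ n) : 1 ≤ (one n).edgeSet.ncard := by
  have hmem : s((⟨0, by omega⟩ : Fin n), (⟨1, by omega⟩ : Fin n)) ∈ (one n).edgeSet := by
    show (one n).Adj _ _
    refine ⟨fun h => ?_, by simp, by simp⟩
    have := congrArg Fin.val h
    simp at this
  rw [Nat.one_le_iff_ne_zero, Ne, Set.ncard_eq_zero (Set.toFinite _)]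
  exact Set.Nonempty.ne_empty ⟨_, hmem⟩

theorem exp_K12 : HasExp [⟨3, K12⟩] 1 := by
  refine ⟨1 / 2, by norm_num, ?_⟩
  have h0 : Tendsto (fun n : ℕ => (1 : ℝ) / n) atTop (𝓝 0) := tendsto_one_div_atTop_nhds_zero_nat
  have h1 : Tendsto (fun n : ℕ => (1 : ℝ) / 2 - 1 / n) atTop (𝓝 (1 / 2)) := by
    simpa using (tendsto_const_nhds (x := (1 : ℝ) / 2)).sub h0
  refine tendsto_of_tendsto_of_tendsto_of_le_of_le' h1 (tendsto_const_nhds (x := (1 : ℝ) / 2))
    ?_ ?_
  · filter_upwards [eventually_gt_atTop 0] with n hn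
    have hn' : (0 : ℝ) < n := by exact_mod_cast hn
    have h2 : n / 2 ≤ f [⟨3, K12⟩] n := (mat_edges n).trans (le_f _ n (mat n) (by
      intro G hG
      rw [List.mem_singleton] at hG
      subst hG
      exact mat_free n))
    have h3 : (n : ℝ) ≤ 2 * (f [⟨3, K12⟩] n : ℝ) + 1 := by
      have : n ≤ 2 * f [⟨3, K12⟩] n + 1 := by omega
      exact_mod_cast this
    rw [Real.rpow_one, le_div_iff₀ hn', sub_mul, div_mul_cancel₀ _ hn'.ne']
    linarith
  · filter_upwards [eventually_gt_atTop 0] with n hn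
    have hn' : (0 : ℝ) < n := by exact_mod_cast hn
    have h2 : f [⟨3, K12⟩] n ≤ n / 2 := f_le _ n _ (fun Γ hΓ => by
      have := edges_of_K12_free Γ (hΓ ⟨3, K12⟩ (by simp))
      omega)
    have h3 : 2 * (f [⟨3, K12⟩] n : ℝ) ≤ n := by
      have : 2 * f [⟨3, K12⟩] n ≤ n := by omega
      exact_mod_cast this
    rw [Real.rpow_one, div_le_iff₀ hn']
    linarith

theorem exp_M2 : HasExp [⟨4, M2⟩] 1 := by
  refine ⟨1, by norm_num, ?_⟩
  have h0 : Tendsto (fun n : ℕ => (1 : ℝ) / n) atTop (𝓝 0) := tendsto_one_div_atTop_nhds_zero_nat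
  have h1 : Tendsto (fun n : ℕ => (1 : ℝ) - 1 / n) atTop (𝓝 1) := by
    simpa using (tendsto_const_nhds (x := (1 : ℝ))).sub h0
  refine tendsto_of_tendsto_of_tendsto_of_le_of_le' h1 (tendsto_const_nhds (x := (1 : ℝ))) ?_ ?_
  · filter_upwards [eventually_gt_atTop 0] with n hn
    have hn' : (0 : ℝ) < n := by exact_mod_cast hn
    have h2 : n - 1 ≤ f [⟨4, M2⟩] n := (st_edges n).trans (le_f _ n (st n) (by
      intro G hG
      rw [List.mem_singleton] at hG
      subst hG
      exact st_free n))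
    have h3 : (n : ℝ) ≤ (f [⟨4, M2⟩] n : ℝ) + 1 := by
      have : n ≤ f [⟨4, M2⟩] n + 1 := by omega
      exact_mod_cast this
    rw [Real.rpow_one, le_div_iff₀ hn', sub_mul, div_mul_cancel₀ _ hn'.ne']
    linarith
  · filter_upwards [eventually_ge_atTop 4] with n hn
    have hn' : (0 : ℝ) < n := by exact_mod_cast (show 0 < n by omega)
    have h2 : f [⟨4, M2⟩] n ≤ n := f_le _ n _ (fun Γ hΓ =>
      edges_of_M2_free Γ (hΓ ⟨4, M2⟩ (by simp)) hn)
    have h3 : (f [⟨4, M2⟩] n : ℝ) ≤ n := by exact_mod_cast h2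
    rw [Real.rpow_one, div_le_iff₀ hn']
    linarith

theorem exp_both : HasExp [⟨3, K12⟩, ⟨4, M2⟩] 0 := by
  refine ⟨1, by norm_num, ?_⟩
  refine tendsto_const_nhds.congr' ?_
  filter_upwards [eventually_ge_atTop 2] with n hn
  have h1 : 1 ≤ f [⟨3, K12⟩, ⟨4, M2⟩] n := (one_edges n hn).trans (le_f _ n (one n) (by
    intro G hG
    rw [List.mem_cons, List.mem_singleton] at hG
    rcases hG with hG | hG
    · subst hG
      exact one_free n
    · subst hG
      exact one_free' n))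
  have h2 : f [⟨3, K12⟩, ⟨4, M2⟩] n ≤ 1 := f_le _ n _ (fun Γ hΓ =>
    edges_of_both_free Γ (hΓ ⟨3, K12⟩ (by simp)) (hΓ ⟨4, M2⟩ (by simp)))
  have h3 : f [⟨3, K12⟩, ⟨4, M2⟩] n = 1 := le_antisymm h2 h1
  rw [h3, Real.rpow_zero]
  norm_num

/-- Part 1: the literal negated form, for a pair of forests. Part 2: a pair of connected bipartite
graphs containing cycles, the 4-cycle and `H`, whose joint extremal number is smaller than each of
the single ones by a power of `n`; so the equality of exponents fails by `γ` whenever the three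
exponents of this pair exist. -/
theorem result :
    (∃ (G₁ G₂ : Σ k : ℕ, SimpleGraph (Fin k)) (α₁ α₂ α : ℝ), G₁.2.Colorable 2 ∧ G₂.2.Colorable 2 ∧
      HasExp [G₁] α₁ ∧ HasExp [G₂] α₂ ∧ HasExp [G₁, G₂] α ∧ α < min α₁ α₂) ∧
    ∃ (H : Σ k : ℕ, SimpleGraph (Fin k)) (γ : ℝ), 0 < γ ∧ H.2.Connected ∧ ¬ H.2.IsAcyclic ∧
      H.2.Colorable 2 ∧
      (∀ᶠ n : ℕ in atTop, (n : ℝ) ^ ((3 : ℝ) / 2) / 23 ≤ (f [C4] n : ℝ) ∧
        (n : ℝ) ^ ((3 : ℝ) / 2 + 1 / 100000) ≤ (f [H] n : ℝ) ∧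
        (f [C4, H] n : ℝ) ≤ (n : ℝ) ^ ((3 : ℝ) / 2 - γ)) ∧
      ∀ α₁ α₂ α : ℝ, HasExp [C4] α₁ → HasExp [H] α₂ → HasExp [C4, H] α → α + γ ≤ min α₁ α₂ := by
  refine ⟨⟨⟨3, K12⟩, ⟨4, M2⟩, 1, 1, 0, K12_colorable, M2_colorable, exp_K12, exp_M2, exp_both,
    by norm_num⟩, ?_⟩
  obtain ⟨k, H, γ, hγ, hconn, hacyc, hcol, n0, hn0⟩ := Run7.h970.pair_facts2
  have hall : ∀ᶠ n : ℕ in atTop, (n : ℝ) ^ ((3 : ℝ) / 2) / 23 ≤ (f [C4] n : ℝ) ∧
        (n : ℝ) ^ ((3 : ℝ) / 2 + 1 / 100000) ≤ (f [⟨k, H⟩] n : ℝ) ∧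
        (f [C4, ⟨k, H⟩] n : ℝ) ≤ (n : ℝ) ^ ((3 : ℝ) / 2 - γ) := by
    filter_upwards [eventually_ge_atTop n0] with n hn
    obtain ⟨⟨Γ1, hΓ1, he1⟩, ⟨Γ2, hΓ2, he2⟩, h3⟩ := hn0 n hn
    refine ⟨?_, ?_, ?_⟩
    · have h4 : (Γ2.edgeSet.ncard : ℝ) ≤ (f [C4] n : ℝ) := Nat.cast_le.mpr (le_f _ n Γ2 (by
        intro G hG
        rw [List.mem_singleton] at hG
        subst hG
        exact hΓ2))
      linarith
    · have h4 : (Γ1.edgeSet.ncard : ℝ) ≤ (f [⟨k, H⟩] n : ℝ) := Nat.cast_le.mpr (le_f _ n Γ1 (by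
        intro G hG
        rw [List.mem_singleton] at hG
        subst hG
        exact hΓ1))
      linarith
    · exact f_le_real _ n _ (by positivity) (fun Γ hΓ =>
        h3 Γ (hΓ C4 (by simp)) (hΓ ⟨k, H⟩ (by simp)))
  refine ⟨⟨k, H⟩, γ, hγ, hconn, hacyc, hcol, hall, ?_⟩
  rintro α₁ α₂ α ⟨c₁, hc₁, h₁⟩ ⟨c₂, hc₂, h₂⟩ ⟨c, hc, h⟩
  have hα : α ≤ 3 / 2 - γ := exp_le hc h (hall.mono fun n hn => hn.2.2)
  have hα₁ : 3 / 2 ≤ α₁ := le_exp (K := 23) (by norm_num) h₁ (hall.mono fun n hn => hn.1)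
  have hα₂ : 3 / 2 + 1 / 100000 ≤ α₂ := le_exp (K := 1) one_pos h₂ (hall.mono fun n hn => by
    rw [div_one]
    exact hn.2.1)
  rw [le_min_iff]
  constructor <;> linarith

end Pool.Agent.Results.MP_befe0b_co.ExponentGap
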